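import Pool.Agent.Q55.SM.Stm

/-!
Invariant quotients and the polynomial form of the action.
-/

open MvPolynomial

namespace Pool.Agent.Q129.SM

open Pool.Agent.Helper819.Dyn Pool.Agent.Helper819.Apolar Pool.Agent.Q55.SM

noncomputable section

variable {k : Type} [Field k] {N d : ℕ}

theorem smul_actT_eq [IsAlgClosed k] (A : Matrix (Fin (N + 1)) (Fin (N + 1)) k) (hA : A.det ≠ 0)
    (t : k) (ht : t ≠ 0) (c : Ix N d → k) :
    ∃ (φ : GL (Fin (N + 1)) k) (s : kˣ), t • actT A c = (s : k) • conjC φ c := by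
  have hu : IsUnit A := (Matrix.isUnit_iff_isUnit_det A).mpr (isUnit_iff_ne_zero.mpr hA)
  refine ⟨hu.unit, Units.mk0 (t * A.det) (mul_ne_zero ht hA), ?_⟩
  have h1 : actT A c = A.det • conjC hu.unit c := by
    unfold actT conjC
    rw [← cf_C_mul]
    congr 1
    funext i
    exact conj_eq_act hu.unit (tup c) i
  rw [h1, smul_smul]
  rfl

/-- Invariance in terms of `actT`. -/
theorem inv_act [IsAlgClosed k] {P Q : MvPolynomial (Ix N d) k} (h : InvQuot P Q)
    (A : Matrix (Fin (N + 1)) (Fin (N + 1)) k) (hA : A.det ≠ 0) (t : k) (ht : t ≠ 0)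
    (c : Ix N d → k) :
    eval (t • actT A c) P * eval c Q = eval c P * eval (t • actT A c) Q := by
  obtain ⟨φ, s, hs⟩ := smul_actT_eq A hA t ht c
  rw [hs]
  exact h c φ s

theorem bind_diag_monomial {R : Type} [CommRing R] (l : Fin (N + 1) → R)
    (m : Fin (N + 1) →₀ ℕ) (r : R) :
    bind₁ (fun j => C (l j) * X j) (monomial m r) = monomial m ((∏ j, l j ^ m j) * r) := by
  rw [bind₁_monomial]
  have h1 : ∏ i ∈ m.support, (C (l i) * (X i : MvPolynomial (Fin (N + 1)) R)) ^ m i =
      C (∏ j, l j ^ m j) * ∏ i ∈ m.support, (X i : MvPolynomial (Fin (N + 1)) R) ^ m i := by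
    simp_rw [mul_pow]
    rw [Finset.prod_mul_distrib, map_prod]
    congr 1
    rw [← Finset.prod_subset (Finset.subset_univ m.support)]
    · exact Finset.prod_congr rfl fun i _ => (map_pow C _ _).symm
    · intro i _ hi
      rw [Finsupp.notMem_support_iff.mp hi, pow_zero, map_one]
  rw [h1, ← mul_assoc, ← C_mul, mul_comm r, monomial_eq]
  rfl

theorem coeff_bind_diag {R : Type} [CommRing R] (l : Fin (N + 1) → R)
    (m : Fin (N + 1) →₀ ℕ) (F : MvPolynomial (Fin (N + 1)) R) :
    coeff m (bind₁ (fun j => C (l j) * X j) F) = (∏ j, l j ^ m j) * coeff m F := by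
  induction F using MvPolynomial.induction_on' with
  | monomial u a =>
    rw [bind_diag_monomial, coeff_monomial, coeff_monomial]
    split_ifs with h
    · rw [h]
    · rw [mul_zero]
  | add p q hp hq => rw [map_add, coeff_add, coeff_add, hp, hq, mul_add]

theorem actT_diag {R : Type} [CommRing R] (l : Fin (N + 1) → R) (s : Ix N d → R) (p : Ix N d) :
    actT (Matrix.diagonal l) s p =
      (∏ j ∈ Finset.univ.erase p.1, l j) * (∏ j, l j ^ p.2.1 j) * s p := by
  classical
  unfold actT cf act
  rw [Finset.sum_eq_single p.1]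
  · rw [Matrix.adjugate_diagonal, Matrix.diagonal_apply_eq, coeff_C_mul]
    have h1 : (fun i => ∑ m, C (Matrix.diagonal l i m) * (X m : MvPolynomial (Fin (N + 1)) R)) =
        fun j => C (l j) * X j := by
      funext i
      rw [Finset.sum_eq_single i]
      · rw [Matrix.diagonal_apply_eq]
      · intro b _ hb
        rw [Matrix.diagonal_apply_ne _ hb.symm, map_zero, zero_mul]
      · intro h
        exact absurd (Finset.mem_univ _) h
    rw [h1, coeff_bind_diag, coeff_tup, mul_assoc]
  · intro b _ hb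
    rw [Matrix.adjugate_diagonal, Matrix.diagonal_apply_ne _ hb.symm, map_zero, zero_mul]
  · intro h
    exact absurd (Finset.mem_univ _) h

theorem det_eq (l : Fin (N + 1) → k) (i : Fin (N + 1)) :
    (Matrix.diagonal l).det = (∏ j ∈ Finset.univ.erase i, l j) * l i := by
  rw [Matrix.det_diagonal, Finset.prod_erase_mul _ _ (Finset.mem_univ i)]

theorem erase_ne (l : Fin (N + 1) → k) (hl : ∀ i, l i ≠ 0) (i : Fin (N + 1)) :
    (∏ j ∈ Finset.univ.erase i, l j) ≠ 0 := Finset.prod_ne_zero_iff.mpr fun j _ => hl j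

theorem actT_diag_fix {R : Type} [CommRing R] [Algebra k R] (l : Fin (N + 1) → k)
    (f : Ix N d → k) (hf : ∀ p ∈ bad (d := d) l, f p = 0) :
    actT (Matrix.diagonal fun i => algebraMap k R (l i)) (fun p => algebraMap k R (f p)) =
      algebraMap k R (Matrix.diagonal l).det • fun p => algebraMap k R (f p) := by
  funext p
  rw [actT_diag]
  simp only [Pi.smul_apply, smul_eq_mul]
  by_cases hp : p ∈ bad l
  · rw [hf p hp, map_zero, mul_zero, mul_zero]
  · rw [mem_bad, not_not] at hp
    rw [det_eq l p.1, ← hp, map_mul, map_prod, map_prod]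
    congr 2
    exact Finset.prod_congr rfl fun i _ => (map_pow _ _ _).symm

theorem xi_bad (l : Fin (N + 1) → k) (hl : ∀ i, l i ≠ 0) (f : Ix N d → k)
    (hf : ∀ p ∈ bad (d := d) l, f p = 0) (Y : Matrix (Fin (N + 1)) (Fin (N + 1)) k)
    (hY : ∀ i j, l i ≠ l j → Y i j = 0) (p : Ix N d) (hp : p ∈ bad l) : xi Y f p = 0 := by
  have hcomm : oneEps (DualNumber.eps : DualNumber k) Y *
      Matrix.diagonal (fun i => algebraMap k (DualNumber k) (l i)) =
      Matrix.diagonal (fun i => algebraMap k (DualNumber k) (l i)) *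
        oneEps (DualNumber.eps : DualNumber k) Y := by
    ext1 i j
    rw [Matrix.mul_diagonal, Matrix.diagonal_mul]
    by_cases h : l i = l j
    · rw [h, mul_comm]
    · have hij : i ≠ j := fun e => h (congrArg l e)
      have h0 : oneEps (DualNumber.eps : DualNumber k) Y i j = 0 := by
        unfold oneEps
        rw [Matrix.add_apply, Matrix.smul_apply, Matrix.map_apply, Matrix.one_apply_ne hij,
          hY i j h, map_zero, smul_zero, add_zero]
      rw [h0, zero_mul, mul_zero]
  have h1 := congrFun (actT_actT (oneEps (DualNumber.eps : DualNumber k) Y)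
    (Matrix.diagonal (fun i => algebraMap k (DualNumber k) (l i)))
    (fun p => algebraMap k (DualNumber k) (f p))) p
  rw [hcomm, ← actT_actT, actT_diag_fix l f hf, actT_smul, actT_diag] at h1
  rw [Pi.smul_apply, smul_eq_mul, actT_eps _ DualNumber.eps_mul_eps] at h1
  have h2 : (∏ j ∈ Finset.univ.erase p.1, algebraMap k (DualNumber k) (l j)) *
      (∏ j, algebraMap k (DualNumber k) (l j) ^ p.2.1 j) =
      algebraMap k (DualNumber k) ((∏ j ∈ Finset.univ.erase p.1, l j) * ∏ j, l j ^ p.2.1 j) := by
    rw [map_mul, map_prod, map_prod]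
    congr 1
    exact Finset.prod_congr rfl fun i _ => (map_pow _ _ _).symm
  rw [h2] at h1
  have h3 : ∀ a b c : k, algebraMap k (DualNumber k) a * (algebraMap k (DualNumber k) b +
      DualNumber.eps * algebraMap k (DualNumber k) c) =
      algebraMap k (DualNumber k) (a * b) + DualNumber.eps * algebraMap k (DualNumber k) (a * c) := by
    intro a b c
    rw [map_mul, map_mul]
    ring
  rw [h3, h3] at h1
  have h4 := congrArg TrivSqZeroExt.snd h1
  rw [snd_form, snd_form, det_eq l p.1] at h4
  have h5 : (∏ j ∈ Finset.univ.erase p.1, l j) *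
      (((∏ j, l j ^ p.2.1 j) - l p.1) * xi Y f p) = 0 := by
    linear_combination h4
  rcases mul_eq_zero.mp h5 with h | h
  · exact absurd h (erase_ne l hl p.1)
  · rcases mul_eq_zero.mp h with h | h
    · exact absurd (sub_eq_zero.mp h) ((mem_bad l p).mp hp)
    · exact h

end

end Pool.Agent.Q129.SM
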