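import Pool.Agent.Q129.SM.Base

/-!
Lemma SM-DIM.
-/

open MvPolynomial

namespace Pool.Agent.Q129.SM

open Pool.Agent.Helper819.Dyn Pool.Agent.Helper819.Apolar Pool.Agent.Q55.SM
open Pool.Agent.Helper819.Gr (tayl eval_tayl tayl_smul tayl_coeff_one tayl_coeff_zero lf Ord
  aeval_lf eval_lf)

noncomputable section

variable {k : Type} [Field k] {N d : ℕ}

/-- the lowest coefficient along a curve -/
theorem curve_low {σ : Type} {c : σ → k} {P : MvPolynomial σ k} {j : ℕ} (hc : Ord j P c)
    (u : σ → Polynomial k) :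
    (aeval (fun p => algebraMap k (Polynomial k) (c p) + Polynomial.X * u p) P).coeff j =
      eval (fun p => (u p).coeff 0) (lf j P c) := by
  have hL : aeval (fun p => algebraMap k (Polynomial k) (c p) + Polynomial.X * u p) P =
      (tayl (fun p => algebraMap k (Polynomial k) (c p)) u P).eval Polynomial.X := by
    rw [eval_tayl]
  have hLc : (aeval (fun p => algebraMap k (Polynomial k) (c p) + Polynomial.X * u p) P).coeff j =
      (aeval u (lf j P c)).coeff 0 := by
    rw [hL, Polynomial.eval_eq_sum_range, Polynomial.finsetSum_coeff]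
    have h1 : ∀ i ∈ Finset.range ((tayl (fun p => algebraMap k (Polynomial k) (c p)) u P).natDegree
        + 1), ((tayl (fun p => algebraMap k (Polynomial k) (c p)) u P).coeff i *
          Polynomial.X ^ i).coeff j =
        if i = j then (aeval u (lf j P c)).coeff 0 else 0 := by
      intro i _
      rw [Polynomial.coeff_mul_X_pow']
      split_ifs with h2 h3 h3
      · rw [h3, Nat.sub_self, aeval_lf]
      · have : i < j := lt_of_le_of_ne h2 h3
        rw [hc.coeff _ this, Polynomial.coeff_zero]
      · omega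
      · rfl
    rw [Finset.sum_congr rfl h1, Finset.sum_ite_eq']
    split_ifs with h2
    · rfl
    · rw [aeval_lf]
      rw [Finset.mem_range, not_lt] at h2
      have h3 : (tayl (fun p => algebraMap k (Polynomial k) (c p)) u P).coeff j = 0 :=
        Polynomial.coeff_eq_zero_of_natDegree_lt (by omega)
      rw [h3, Polynomial.coeff_zero]
  rw [hLc, Polynomial.coeff_zero_eq_eval_zero]
  have h3 := comp_aeval_apply u ((Polynomial.aeval (0 : k) : Polynomial k →ₐ[k] k)) (lf j P c)
  rw [← coe_aeval_eq_eval]
  change (Polynomial.aeval (0 : k) : Polynomial k →ₐ[k] k) _ = _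
  rw [h3]
  have h4 : (fun i => (Polynomial.aeval (0 : k) : Polynomial k →ₐ[k] k) (u i)) =
      fun p => (u p).coeff 0 := by
    funext p
    rw [Polynomial.coeff_zero_eq_eval_zero]
    rfl
  rw [h4]
  rfl

theorem exists_low [Infinite k] {σ : Type} (c : σ → k) {P : MvPolynomial σ k} (hP : P ≠ 0) :
    ∃ j, Ord j P c ∧ lf j P c ≠ 0 := by
  classical
  have h1 : ∃ j, lf j P c ≠ 0 := by
    by_contra hcon
    push Not at hcon
    apply hP
    apply MvPolynomial.funext
    intro x
    have h2 : tayl c (x - c) P = 0 := by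
      ext i
      rw [← eval_lf, hcon i, map_zero, Polynomial.coeff_zero]
    have h3 := eval_tayl (k := k) (1 : k) c (x - c) P
    rw [h2, Polynomial.eval_zero] at h3
    rw [map_zero, ← coe_aeval_eq_eval]
    have h4 : (fun p => c p + 1 * (x - c) p) = x := by
      funext p
      simp
    rw [h4] at h3
    exact h3.symm
  refine ⟨Nat.find h1, ?_, Nat.find_spec h1⟩
  intro i hi
  have := Nat.find_min h1 hi
  rwa [not_not] at this

/-- the moving matrix -/
def mv (Y : Matrix (Fin (N + 1)) (Fin (N + 1)) k) :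
    Matrix (Fin (N + 1)) (Fin (N + 1)) (Polynomial k) :=
  1 + (Polynomial.X : Polynomial k) • Y.map Polynomial.C

theorem mv_eval (Y : Matrix (Fin (N + 1)) (Fin (N + 1)) k) (s : k) :
    (mv Y).map (Polynomial.evalRingHom s) = 1 + s • Y := by
  ext i j
  unfold mv
  simp only [Matrix.map_apply, Matrix.add_apply, Matrix.smul_apply, Matrix.one_apply,
    smul_eq_mul, Polynomial.coe_evalRingHom, Polynomial.eval_add, Polynomial.eval_mul,
    Polynomial.eval_X, Polynomial.eval_C]
  split_ifs <;> simp

theorem curve_exists (Y : Matrix (Fin (N + 1)) (Fin (N + 1)) k) (f v : Ix N d → k) :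
    ∃ u : Ix N d → Polynomial k,
      actT (mv Y) (fun p => Polynomial.C (f p) + Polynomial.X * Polynomial.C (v p)) =
        (fun p => algebraMap k (Polynomial k) (f p) + Polynomial.X * u p) ∧
      ∀ p, (u p).coeff 0 = v p + xi Y f p := by
  set y := actT (mv Y) (fun p => Polynomial.C (f p) + Polynomial.X * Polynomial.C (v p)) with hy
  have hy0 : ∀ p, (y p).coeff 0 = f p := by
    intro p
    have h1 := map_actT (Polynomial.evalRingHom (0 : k)) (mv Y)
      (fun p => Polynomial.C (f p) + Polynomial.X * Polynomial.C (v p)) p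
    rw [mv_eval, zero_smul, add_zero, actT_one] at h1
    rw [Polynomial.coeff_zero_eq_eval_zero]
    change Polynomial.evalRingHom 0 (y p) = _
    rw [h1]
    simp
  let φ : Polynomial k →ₐ[k] DualNumber k := Polynomial.aeval DualNumber.eps
  have hφX : φ Polynomial.X = DualNumber.eps := Polynomial.aeval_X _
  have hφC : ∀ a, φ (Polynomial.C a) = algebraMap k _ a := fun a => Polynomial.aeval_C _ _
  have hφsnd : ∀ q : Polynomial k, φ q = algebraMap k _ (q.coeff 0) +
      DualNumber.eps * algebraMap k _ (q.coeff 1) := by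
    intro q
    have h1 : q = Polynomial.C (q.coeff 0) + Polynomial.X * (Polynomial.C (q.coeff 1) +
        Polynomial.X * q.divX.divX) := by
      conv_lhs => rw [← Polynomial.divX_mul_X_add q, ← Polynomial.divX_mul_X_add q.divX]
      rw [Polynomial.coeff_divX]
      ring
    conv_lhs => rw [h1]
    rw [map_add, map_mul, map_add, map_mul, hφX, hφC, hφC]
    have h2 := DualNumber.eps_mul_eps (R := k)
    linear_combination (φ q.divX.divX) * h2
  have hy1 : ∀ p, (y p).coeff 1 = v p + xi Y f p := by
    intro p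
    have h1 := map_actT (φ : Polynomial k →+* DualNumber k) (mv Y)
      (fun p => Polynomial.C (f p) + Polynomial.X * Polynomial.C (v p)) p
    have h2 : (mv Y).map (φ : Polynomial k →+* DualNumber k) =
        oneEps (DualNumber.eps : DualNumber k) Y := by
      ext1 i j
      change φ ((1 + (Polynomial.X : Polynomial k) • Y.map Polynomial.C) i j) = _
      rw [Matrix.add_apply, Matrix.smul_apply, Matrix.map_apply, smul_eq_mul, map_add, map_mul,
        hφX, hφC, Matrix.one_apply]
      unfold oneEps
      rw [Matrix.add_apply, Matrix.smul_apply, Matrix.map_apply, smul_eq_mul, Matrix.one_apply]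
      split_ifs <;> simp
    have h3 : (fun q => (φ : Polynomial k →+* DualNumber k) (Polynomial.C (f q) +
        Polynomial.X * Polynomial.C (v q))) = fun q => algebraMap k (DualNumber k) (f q) +
        DualNumber.eps * algebraMap k (DualNumber k) (v q) := by
      funext q
      change φ _ = _
      rw [map_add, map_mul, hφX, hφC, hφC]
    rw [h2, h3, actT_eps' _ DualNumber.eps_mul_eps] at h1
    change φ (y p) = _ at h1
    rw [hφsnd, hy0] at h1
    have h5 := congrArg TrivSqZeroExt.snd h1
    rw [snd_form, snd_form, add_comm] at h5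
    exact h5
  refine ⟨fun p => (y p).divX, ?_, ?_⟩
  · funext p
    have h1 := (Polynomial.divX_mul_X_add (y p)).symm
    rw [hy0] at h1
    calc y p = (y p).divX * Polynomial.X + Polynomial.C (f p) := h1
      _ = Polynomial.C (f p) + Polynomial.X * (y p).divX := by ring
  · intro p
    change (y p).divX.coeff 0 = _
    rw [Polynomial.coeff_divX]
    exact hy1 p

theorem claim [IsAlgClosed k] {f : Ix N d → k} (W : Submodule k (Ix N d → k))
    (hW : ∀ w : Ix N d → k, ∃ Y : Matrix (Fin (N + 1)) (Fin (N + 1)) k, ∃ v ∈ W, w = v + xi Y f)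
    {P Q : MvPolynomial (Ix N d) k} (h : InvQuot P Q) (hQ : eval f Q ≠ 0)
    (hP : ∀ v ∈ W, eval (f + v) P = 0) : P = 0 := by
  have hinf : Infinite k := IsAlgClosed.instInfinite
  by_contra hne
  obtain ⟨j, hord, hlf⟩ := exists_low f hne
  apply hlf
  apply MvPolynomial.funext
  intro w
  rw [map_zero]
  obtain ⟨Y, v, hv, rfl⟩ := hW w
  obtain ⟨u, hu1, hu2⟩ := curve_exists Y f v
  have hu3 : v + xi Y f = fun p => (u p).coeff 0 := by
    funext p
    rw [hu2 p]
    rfl
  rw [hu3, ← curve_low hord u, ← hu1]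
  have hzero : aeval (actT (mv Y)
      (fun p => Polynomial.C (f p) + Polynomial.X * Polynomial.C (v p))) P *
      (tayl f v Q * (mv Y).det) = 0 := by
    apply Polynomial.funext
    intro s
    rw [Polynomial.eval_mul, Polynomial.eval_mul, Polynomial.eval_zero, eval_tayl]
    have e1 : (aeval (actT (mv Y)
        (fun p => Polynomial.C (f p) + Polynomial.X * Polynomial.C (v p))) P).eval s =
        eval (actT (1 + s • Y) (f + s • v)) P := by
      have h3 := comp_aeval_apply (actT (mv Y)
        (fun p => Polynomial.C (f p) + Polynomial.X * Polynomial.C (v p)))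
        ((Polynomial.aeval (s : k) : Polynomial k →ₐ[k] k)) P
      rw [← coe_aeval_eq_eval]
      change (Polynomial.aeval s : Polynomial k →ₐ[k] k) _ = _
      rw [h3]
      have h4 : (fun i => (Polynomial.aeval s : Polynomial k →ₐ[k] k) (actT (mv Y)
          (fun p => Polynomial.C (f p) + Polynomial.X * Polynomial.C (v p)) i)) =
          actT (1 + s • Y) (f + s • v) := by
        funext p
        have h5 := map_actT (Polynomial.evalRingHom s) (mv Y)
          (fun p => Polynomial.C (f p) + Polynomial.X * Polynomial.C (v p)) p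
        rw [mv_eval] at h5
        change Polynomial.evalRingHom s _ = _
        rw [h5]
        congr 1
        funext q
        simp only [Polynomial.coe_evalRingHom, Polynomial.eval_add, Polynomial.eval_mul,
          Polynomial.eval_X, Polynomial.eval_C, Pi.add_apply, Pi.smul_apply, smul_eq_mul]
      rw [h4]
      rfl
    have e2 : (mv Y).det.eval s = (1 + s • Y).det := by
      change Polynomial.evalRingHom s _ = _
      rw [RingHom.map_det, RingHom.mapMatrix_apply, mv_eval]
    have e3 : aeval (fun p => f p + s * v p) Q = eval (f + s • v) Q := by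
      rw [← coe_aeval_eq_eval]
      rfl
    rw [e1, e2, e3]
    by_cases hdet : (1 + s • Y).det = 0
    · rw [hdet, mul_zero, mul_zero]
    · have h6 := inv_act h (1 + s • Y) hdet 1 one_ne_zero (f + s • v)
      rw [one_smul, hP (s • v) (W.smul_mem s hv), zero_mul] at h6
      rw [← mul_assoc, h6, zero_mul]
  have hQ0 : tayl f v Q ≠ 0 := by
    intro h0
    apply hQ
    have h1 := tayl_coeff_zero (k := k) f v Q
    rw [h0, Polynomial.coeff_zero] at h1
    rw [← coe_aeval_eq_eval]
    exact h1.symm
  have hdet0 : (mv Y).det ≠ 0 := by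
    intro h0
    have e2 : (mv Y).det.eval 0 = (1 + (0 : k) • Y).det := by
      change Polynomial.evalRingHom 0 _ = _
      rw [RingHom.map_det, RingHom.mapMatrix_apply, mv_eval]
    rw [h0, Polynomial.eval_zero, zero_smul, add_zero, Matrix.det_one] at e2
    exact one_ne_zero e2.symm
  have h1 := (mul_eq_zero.mp hzero).resolve_right (mul_ne_zero hQ0 hdet0)
  rw [h1, Polynomial.coeff_zero]

/-- pairs of an element of the local ring and its restriction -/
def pairAlg (f : Ix N d → k) {K : Type} [Field K] [Algebra k K]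
    (ρ : MvPolynomial (Ix N d) k →ₐ[k] K) : Subalgebra k (RF k N d × K) where
  carrier := {h | ∃ P Q : MvPolynomial (Ix N d) k, eval f Q ≠ 0 ∧ InvQuot P Q ∧
    h.1 * algebraMap _ (RF k N d) Q = algebraMap _ (RF k N d) P ∧ h.2 * ρ Q = ρ P}
  mul_mem' := by
    rintro a b ⟨P, Q, hQ, hPQ, ha, ha'⟩ ⟨P', Q', hQ', hPQ', hb, hb'⟩
    refine ⟨P * P', Q * Q', by rw [map_mul]; exact mul_ne_zero hQ hQ', ?_, ?_, ?_⟩
    · intro c φ t
      have h1 := hPQ c φ t
      have h2 := hPQ' c φ t
      simp only [map_mul]
      linear_combination (eval ((t : k) • conjC φ c) P' * eval c Q') * h1 +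
        (eval c P * eval ((t : k) • conjC φ c) Q) * h2
    · rw [map_mul, map_mul, ← ha, ← hb, Prod.fst_mul]
      ring
    · rw [map_mul, map_mul, ← ha', ← hb', Prod.snd_mul]
      ring
  add_mem' := by
    rintro a b ⟨P, Q, hQ, hPQ, ha, ha'⟩ ⟨P', Q', hQ', hPQ', hb, hb'⟩
    refine ⟨P * Q' + P' * Q, Q * Q', by rw [map_mul]; exact mul_ne_zero hQ hQ', ?_, ?_, ?_⟩
    · intro c φ t
      have h1 := hPQ c φ t
      have h2 := hPQ' c φ t
      simp only [map_mul, map_add]
      linear_combination (eval ((t : k) • conjC φ c) Q' * eval c Q') * h1 +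
        (eval ((t : k) • conjC φ c) Q * eval c Q) * h2
    · rw [map_add, map_mul, map_mul, map_mul, ← ha, ← hb, Prod.fst_add]
      ring
    · rw [map_add, map_mul, map_mul, map_mul, ← ha', ← hb', Prod.snd_add]
      ring
  algebraMap_mem' := fun r => ⟨C r, 1, by rw [map_one]; exact one_ne_zero, fun c φ t => by
    simp only [map_one, eval_C], by
      rw [map_one, mul_one]
      change algebraMap k (RF k N d) r = _
      rw [IsScalarTower.algebraMap_apply k (MvPolynomial (Ix N d) k) (RF k N d)]
      rfl, by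
      rw [map_one, mul_one]
      change algebraMap k K r = _
      exact (ρ.commutes r).symm⟩

theorem indep_of_indep {f : Ix N d → k} {K : Type} [Field K] [Algebra k K]
    (ρ : MvPolynomial (Ix N d) k →ₐ[k] K)
    (h1 : ∀ P Q, InvQuot P Q → eval f Q ≠ 0 → ρ P = 0 → P = 0)
    (h2 : ∀ Q, eval f Q ≠ 0 → ρ Q ≠ 0) {l : ℕ} (x : Fin l → locRing f)
    (hx : ∀ F : MvPolynomial (Fin l) k, aeval x F = 0 → F = 0) :
    ∃ y : Fin l → K, AlgebraicIndependent k y := by
  choose P Q hQ hPQ hxQ using fun i => (x i).2
  refine ⟨fun i => ρ (P i) / ρ (Q i), ?_⟩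
  rw [algebraicIndependent_iff]
  intro F hF
  apply hx
  let z : Fin l → pairAlg f ρ := fun i => ⟨((x i : RF k N d), ρ (P i) / ρ (Q i)), P i, Q i, hQ i,
    hPQ i, hxQ i, div_mul_cancel₀ _ (h2 _ (hQ i))⟩
  have e1 := comp_aeval_apply z ((AlgHom.fst k (RF k N d) K).comp (pairAlg f ρ).val) F
  have e2 := comp_aeval_apply z ((AlgHom.snd k (RF k N d) K).comp (pairAlg f ρ).val) F
  have e3 := comp_aeval_apply x (locRing f).val F
  change (aeval z F).1.1 = aeval (fun i => (x i : RF k N d)) F at e1
  change (aeval z F).1.2 = aeval (fun i => ρ (P i) / ρ (Q i)) F at e2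
  change ((aeval x F : locRing f) : RF k N d) = aeval (fun i => (x i : RF k N d)) F at e3
  obtain ⟨P', Q', hQ', hPQ', ha, hb⟩ := (aeval z F).2
  rw [e2, hF, zero_mul] at hb
  have h3 := h1 P' Q' hPQ' hQ' hb.symm
  rw [h3, map_zero, e1, ← e3] at ha
  have h4 : algebraMap (MvPolynomial (Ix N d) k) (RF k N d) Q' ≠ 0 := by
    intro h0
    apply hQ'
    have h5 : Q' = 0 := (IsFractionRing.injective (MvPolynomial (Ix N d) k) (RF k N d))
      (by rw [h0, map_zero])
    rw [h5, map_zero]
  have h5 := (mul_eq_zero.mp ha).resolve_right h4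
  exact Subtype.ext h5

theorem trdeg_frac (n : ℕ) : Algebra.trdeg k (FractionRing (MvPolynomial (Fin n) k)) = n := by
  have h2 : Algebra.IsAlgebraic (MvPolynomial (Fin n) k)
      (FractionRing (MvPolynomial (Fin n) k)) :=
    IsLocalization.isAlgebraic _ (nonZeroDivisors (MvPolynomial (Fin n) k))
  have h1 := trdeg_add_eq k (MvPolynomial (Fin n) k)
    (A := FractionRing (MvPolynomial (Fin n) k))
  rw [← h1, MvPolynomial.trdeg_of_isDomain, trdeg_eq_zero, add_zero]
  simp

theorem dim : S_Dim := by
  intro k _ _ _ N d hd f hf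
  have hinj : Function.Injective (xiL f) := by
    rw [injective_iff_map_eq_zero]
    intro Y hY
    apply lie_inj hd hf
    intro i
    have h1 : lieT Y (tup f) i = 0 := by
      rw [← tup_xi (by omega) Y f]
      change tup (xiL f Y) i = 0
      rw [hY]
      unfold tup
      simp
    unfold lieT at h1
    linear_combination h1
  have hrank : Module.finrank k (LinearMap.range (xiL f)) = (N + 1) ^ 2 := by
    rw [LinearMap.finrank_range_of_inj hinj, Module.finrank_matrix]
    simp [pow_two]
  obtain ⟨W, hW⟩ := Submodule.exists_isCompl (LinearMap.range (xiL f))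
  have hWrank : Module.finrank k W = Fintype.card (Ix N d) - (N + 1) ^ 2 := by
    have h1 := Submodule.finrank_add_eq_of_isCompl hW
    rw [hrank, Module.finrank_fintype_fun_eq_card] at h1
    omega
  have hsum : ∀ w : Ix N d → k, ∃ Y : Matrix (Fin (N + 1)) (Fin (N + 1)) k, ∃ v ∈ W,
      w = v + xi Y f := by
    intro w
    have h1 : w ∈ (LinearMap.range (xiL f)) ⊔ W := by
      rw [hW.sup_eq_top]
      trivial
    obtain ⟨_, ⟨Y, rfl⟩, v, hv, rfl⟩ := Submodule.mem_sup.mp h1
    exact ⟨Y, v, hv, add_comm _ _⟩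
  set n := Module.finrank k W with hn
  let b : Module.Basis (Fin n) k W := Module.finBasis k W
  let ρ0 : MvPolynomial (Ix N d) k →ₐ[k] MvPolynomial (Fin n) k :=
    aeval (fun p => C (f p) + ∑ j, C ((b j : Ix N d → k) p) * X j)
  let K := FractionRing (MvPolynomial (Fin n) k)
  let ρ : MvPolynomial (Ix N d) k →ₐ[k] K :=
    (IsScalarTower.toAlgHom k (MvPolynomial (Fin n) k) K).comp ρ0
  have hρ : ∀ P, ρ P = 0 → ∀ v ∈ W, eval (f + v) P = 0 := by
    intro P hP v hv
    have h1 : ρ0 P = 0 := (IsFractionRing.injective (MvPolynomial (Fin n) k) K)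
      (by rw [map_zero]; exact hP)
    have h2 := congrArg (aeval (fun j => b.repr ⟨v, hv⟩ j) : MvPolynomial (Fin n) k →ₐ[k] k) h1
    rw [map_zero] at h2
    change (aeval (fun j => b.repr ⟨v, hv⟩ j) : MvPolynomial (Fin n) k →ₐ[k] k) (aeval _ P) = 0
      at h2
    rw [comp_aeval_apply] at h2
    rw [← coe_aeval_eq_eval, ← h2]
    change aeval (f + v) P = _
    congr 2
    funext p
    have h3 := congrArg (fun w : W => (w : Ix N d → k) p) (b.sum_repr ⟨v, hv⟩)
    simp only [map_add, map_sum, map_mul, aeval_X, algHom_C, Pi.add_apply]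
    simp only [Submodule.coe_sum, Submodule.coe_smul, Finset.sum_apply, Pi.smul_apply,
      smul_eq_mul] at h3
    rw [← h3]
    simp only [Algebra.algebraMap_self, RingHom.id_apply]
    congr 1
    exact Finset.sum_congr rfl fun j _ => mul_comm _ _
  have hA1 : ∀ P Q, InvQuot P Q → eval f Q ≠ 0 → ρ P = 0 → P = 0 :=
    fun P Q hPQ hQ hP => claim W hsum hPQ hQ (hρ P hP)
  have hA2 : ∀ Q, eval f Q ≠ 0 → ρ Q ≠ 0 := by
    intro Q hQ h0
    apply hQ
    have := hρ Q h0 0 W.zero_mem
    rwa [add_zero] at this
  rw [← hWrank]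
  unfold ringKrullDim Order.krullDim
  refine iSup_le fun s => ?_
  obtain ⟨x, hx⟩ := Pool.Agent.Helper819.Zar.exists_indep (k := k) s.length s.toFun s.strictMono
  obtain ⟨y, hy⟩ := indep_of_indep ρ hA1 hA2 x (fun F hF => hx F (by rw [hF]; exact zero_mem _))
  have h1 := hy.lift_cardinalMk_le_trdeg
  rw [trdeg_frac] at h1
  have h2 : s.length ≤ n := by simpa using h1
  exact_mod_cast h2

end

end Pool.Agent.Q129.SM
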