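import Pool.Agent.Q129.SM.Base

/-!
Lemma SM-TAN.
-/

open MvPolynomial

namespace Pool.Agent.Q129.SM

open Pool.Agent.Helper819.Dyn Pool.Agent.Helper819.Apolar Pool.Agent.Q55.SM
open Pool.Agent.Helper819.Gr (tayl eval_tayl tayl_smul tayl_coeff_one tayl_coeff_zero)

noncomputable section

variable {k : Type} [Field k] {N d : ℕ}

/-- the matrix with given entries at the pairs in `off l` -/
def matOff (l : Fin (N + 1) → k) : ((off l) → k) →ₗ[k] Matrix (Fin (N + 1)) (Fin (N + 1)) k where
  toFun z := Matrix.of fun i j => by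
    classical
    exact if h : (i, j) ∈ off l then z ⟨(i, j), h⟩ else 0
  map_add' z z' := by
    ext i j
    simp only [Matrix.of_apply, Matrix.add_apply]
    split_ifs <;> simp
  map_smul' r z := by
    ext i j
    simp only [Matrix.of_apply, Matrix.smul_apply, RingHom.id_apply]
    split_ifs <;> simp

theorem matOff_of (l : Fin (N + 1) → k) (z : off l → k) (i j : Fin (N + 1)) (h : (i, j) ∈ off l) :
    matOff l z i j = z ⟨(i, j), h⟩ := by
  change (if h : (i, j) ∈ off l then z ⟨(i, j), h⟩ else 0) = _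
  rw [dif_pos h]

/-- restriction to the bad indices -/
def resBad (l : Fin (N + 1) → k) : (Ix N d → k) →ₗ[k] ((bad (d := d) l) → k) :=
  LinearMap.funLeft k k (fun p : bad (d := d) l => (p : Ix N d))

theorem exists_bad (h1 : S_Q) (hN : 2 ≤ N) (hd : 2 ≤ d) (f : Ix N d → k) (l : Fin (N + 1) → k)
    (hl : ∀ i, l i ≠ 0) (hne : ∃ i j, l i ≠ l j) (hf : ∀ p ∈ bad (d := d) l, f p = 0) :
    ∃ p ∈ bad (d := d) l, ∀ Y : Matrix (Fin (N + 1)) (Fin (N + 1)) k, xi Y f ≠ Pi.single p 1 := by
  classical
  by_contra hcon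
  push Not at hcon
  have hsurj : Function.Surjective ((resBad l) ∘ₗ (xiL f) ∘ₗ (matOff l)) := by
    rw [← LinearMap.range_eq_top, eq_top_iff, ← (Pi.basisFun k (bad (d := d) l)).span_eq,
      Submodule.span_le]
    rintro _ ⟨p, rfl⟩
    obtain ⟨Y, hY⟩ := hcon p.1 p.2
    refine ⟨fun q => Y q.1.1 q.1.2, ?_⟩
    have h2 : Y = matOff l (fun q => Y q.1.1 q.1.2) + (Y - matOff l (fun q => Y q.1.1 q.1.2)) := by
      abel
    have h3 : ∀ q ∈ bad (d := d) l, xi Y f q = xi (matOff l (fun q => Y q.1.1 q.1.2)) f q := by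
      intro q hq
      conv_lhs => rw [h2]
      rw [xi_add, Pi.add_apply, xi_bad l hl f hf (Y - matOff l (fun q => Y q.1.1 q.1.2)) ?_ q hq,
        add_zero]
      intro i j hij
      rw [Matrix.sub_apply, matOff_of l _ i j ((mem_off l (i, j)).mpr hij), sub_self]
    funext q
    change xi (matOff l (fun q => Y q.1.1 q.1.2)) f q.1 = _
    rw [← h3 q.1 q.2, hY, Pi.basisFun_apply]
    by_cases h : q = p
    · rw [h, Pi.single_eq_same, Pi.single_eq_same]
    · rw [Pi.single_eq_of_ne h, Pi.single_eq_of_ne (fun e => h (Subtype.ext e))]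
  have h2 := LinearMap.finrank_le_finrank_of_surjective hsurj
  rw [Module.finrank_fintype_fun_eq_card, Module.finrank_fintype_fun_eq_card,
    Fintype.card_coe, Fintype.card_coe] at h2
  have h3 := h1 hN hd l hl hne
  omega

theorem tan (h1 : S_Q) : S_Tan := by
  intro k _ _ _ N d hN hd f l hl hne hf
  classical
  obtain ⟨p, hp, hY⟩ := exists_bad h1 hN hd f l hl hne hf
  refine ⟨Pi.single p 1, hY, ?_⟩
  intro P Q hPQ
  have hinf : Infinite k := IsAlgClosed.instInfinite
  set v : Ix N d → k := Pi.single p 1 with hv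
  set δ : k := (Matrix.diagonal l).det with hδ
  have hdet : δ ≠ 0 := by
    rw [hδ, Matrix.det_diagonal]
    exact Finset.prod_ne_zero_iff.mpr fun i _ => hl i
  set m : k := δ⁻¹ * ((∏ j ∈ Finset.univ.erase p.1, l j) * (∏ j, l j ^ p.2.1 j)) with hm
  have hm1 : m ≠ 1 := by
    intro h
    apply (mem_bad l p).mp hp
    have h2 : (∏ j ∈ Finset.univ.erase p.1, l j) * (∏ j, l j ^ p.2.1 j) = δ := by
      rw [hm] at h
      field_simp at h
      exact h
    rw [hδ, det_eq l p.1] at h2
    exact mul_left_cancel₀ (erase_ne l hl p.1) h2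
  have hθf : δ⁻¹ • actT (Matrix.diagonal l) f = f := by
    have h2 := actT_diag_fix (R := k) l f hf
    change actT (Matrix.diagonal l) f = δ • f at h2
    rw [h2, smul_smul, inv_mul_cancel₀ hdet, one_smul]
  have hθv : δ⁻¹ • actT (Matrix.diagonal l) v = m • v := by
    funext q
    rw [Pi.smul_apply, Pi.smul_apply, actT_diag]
    by_cases h : q = p
    · rw [h, hm, hv, Pi.single_eq_same]
      simp only [smul_eq_mul]
      ring
    · rw [hv, Pi.single_eq_of_ne h, mul_zero, smul_zero, smul_zero]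
  have hθ : ∀ s : k, δ⁻¹ • actT (Matrix.diagonal l) (f + s • v) = f + s • (m • v) := by
    intro s
    rw [actT_add, actT_smul, smul_add, hθf, smul_comm, hθv]
  have key : tayl f (m • v) P * tayl f v Q = tayl f v P * tayl f (m • v) Q := by
    apply Polynomial.funext
    intro s
    rw [Polynomial.eval_mul, Polynomial.eval_mul, eval_tayl, eval_tayl, eval_tayl, eval_tayl]
    have h2 := inv_act hPQ (Matrix.diagonal l) hdet δ⁻¹ (inv_ne_zero hdet) (f + s • v)
    rw [hθ] at h2
    exact h2
  have h2 := congrArg (fun q => q.coeff 1) key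
  simp only [Polynomial.mul_coeff_one] at h2
  have c0 : ∀ (w : Ix N d → k) (R : MvPolynomial (Ix N d) k),
      (tayl f w R).coeff 0 = eval f R := by
    intro w R
    rw [tayl_coeff_zero, ← coe_aeval_eq_eval]
    rfl
  have c1 : ∀ R : MvPolynomial (Ix N d) k, (tayl f v R).coeff 1 = dd R f v :=
    fun R => tayl_coeff_one f v R
  have c1' : ∀ R : MvPolynomial (Ix N d) k, (tayl f (m • v) R).coeff 1 = m * dd R f v := by
    intro R
    rw [tayl_smul, pow_one, c1]
  simp only [c0, c1, c1'] at h2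
  have h3 : (m - 1) * (dd P f v * eval f Q - eval f P * dd Q f v) = 0 := by
    linear_combination h2
  rcases mul_eq_zero.mp h3 with h | h
  · exact absurd (sub_eq_zero.mp h) hm1
  · exact sub_eq_zero.mp h

end

end Pool.Agent.Q129.SM
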